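import Pool.Agent.Helper62.DSH.StB

set_option autoImplicit false

open Set Filter Topology MeasureTheory
open Helper62.LH Helper62.DSH
open scoped ContDiff ENNReal

noncomputable section

namespace Helper16.DSH

private theorem q2_cont {n j : ℕ} {u : E n → Tn n j} (hu : ∀ I, Continuous fun x => u x I) :
    Continuous fun x => q2 (u x) := by
  unfold q2 ipt
  exact (continuous_finsetSum _ fun I _ => (hu I).mul (hu I)).div_const _

private theorem cv_cont {n j : ℕ} {g : E n → Bl n} {Γ : E n → Bm n} {F : Fin n → E n → E n}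
    {G : E n → Fin n → Fin n → Fin n → ℝ} (hF : Frm g Γ F G) {v : E n → Tn n j}
    (hv : ContDiff ℝ ∞ v) (a : Fin n) (I : Fin j → Fin n) :
    Continuous fun x => cv F G v x a I := by
  have h1 : Continuous fun x => fderiv ℝ v x (F a x) :=
    (hv.continuous_fderiv (by simp)).clm_apply (hF.smF a).continuous
  have h2 : Continuous fun x => rho (G x a) (v x) I := by
    unfold rho
    refine continuous_finsetSum _ fun k _ => continuous_finsetSum _ fun l _ => ?_
    exact (hF.smG a (I k) l).continuous.mul ((continuous_apply _).comp hv.continuous)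
  exact ((continuous_apply I).comp h1).sub h2

private theorem NF_cont {n j : ℕ} {g : E n → Bl n} {Γ : E n → Bm n} {F : Fin n → E n → E n}
    {G : E n → Fin n → Fin n → Fin n → ℝ} (hF : Frm g Γ F G) {v : E n → Tn n j}
    (hv : ContDiff ℝ ∞ v) : Continuous (NF F G v) := by
  unfold NF
  exact continuous_finsetSum _ fun a _ => q2_cont fun I => cv_cont hF hv a I

/-- the differentials of the components are bounded by the covariant derivative -/
private theorem dbound {n j : ℕ} (hNrm : TNrm) (hRho : TRho) {g : E n → Bl n} {Γ : E n → Bm n}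
    {F : Fin n → E n → E n} {G : E n → Fin n → Fin n → Fin n → ℝ} (hF : Frm g Γ F G)
    {v : E n → Tn n j} (hv : ContDiff ℝ ∞ v) (x : E n) (BF BG : ℝ) (hBF : 0 ≤ BF)
    (h1 : ∀ a, ‖g x‖ * ‖F a x‖ ≤ BF) (h2 : ∀ a b c, |G x a b c| ≤ BG) :
    ∑ I, ‖fderiv ℝ (fun y => v y I) x‖ ^ 2 ≤
      (BF ^ 2 * n * j.factorial * (2 + 2 * n * (j * n * BG) ^ 2)) * (NF F G v x + q2 (v x)) := by
  obtain ⟨n1, -, -, n4, -, -, -, -⟩ := hNrm n j
  have hvd : DifferentiableAt ℝ v x := hv.differentiable (by simp) x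
  have key : ∀ I, ‖fderiv ℝ (fun y => v y I) x‖ ≤ BF * ∑ a, |fderiv ℝ v x (F a x) I| := by
    intro I
    refine ContinuousLinearMap.opNorm_le_bound _
      (mul_nonneg hBF (Finset.sum_nonneg fun a _ => abs_nonneg _)) fun w => ?_
    have e1 : fderiv ℝ (fun y => v y I) x w = (fderiv ℝ v x w) I := by
      have := (hasFDerivAt_pi'.1 hvd.hasFDerivAt I).fderiv
      rw [this]; rfl
    have e2 : (fderiv ℝ v x w) I = ∑ a, g x w (F a x) * (fderiv ℝ v x (F a x)) I := by
      conv_lhs => rw [← (hF.onb x).expd w]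
      rw [map_sum, Finset.sum_apply]
      exact Finset.sum_congr rfl fun a _ => by rw [map_smul]; rfl
    rw [e1, e2, Real.norm_eq_abs]
    calc |∑ a, g x w (F a x) * (fderiv ℝ v x (F a x)) I|
        ≤ ∑ a, |g x w (F a x) * (fderiv ℝ v x (F a x)) I| := Finset.abs_sum_le_sum_abs _ _
      _ ≤ ∑ a, (BF * ‖w‖) * |(fderiv ℝ v x (F a x)) I| := by
          refine Finset.sum_le_sum fun a _ => ?_
          rw [abs_mul]
          refine mul_le_mul_of_nonneg_right ?_ (abs_nonneg _)
          have h3 : |g x w (F a x)| ≤ ‖g x‖ * ‖w‖ * ‖F a x‖ := (g x).le_opNorm₂ w (F a x)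
          calc |g x w (F a x)| ≤ ‖g x‖ * ‖w‖ * ‖F a x‖ := h3
            _ = (‖g x‖ * ‖F a x‖) * ‖w‖ := by ring
            _ ≤ BF * ‖w‖ := mul_le_mul_of_nonneg_right (h1 a) (norm_nonneg _)
      _ = BF * (∑ a, |fderiv ℝ v x (F a x) I|) * ‖w‖ := by
          rw [← Finset.mul_sum]; ring
  have key2 : ∀ I, ‖fderiv ℝ (fun y => v y I) x‖ ^ 2 ≤
      BF ^ 2 * (n * ∑ a, (fderiv ℝ v x (F a x) I) ^ 2) := by
    intro I
    have h3 : (∑ a, |fderiv ℝ v x (F a x) I|) ^ 2 ≤ n * ∑ a, (fderiv ℝ v x (F a x) I) ^ 2 := by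
      have := sq_sum_le_card_mul_sum_sq (s := Finset.univ) (f := fun a => |fderiv ℝ v x (F a x) I|)
      simp only [sq_abs, Finset.card_univ, Fintype.card_fin] at this
      exact this
    calc ‖fderiv ℝ (fun y => v y I) x‖ ^ 2 ≤ (BF * ∑ a, |fderiv ℝ v x (F a x) I|) ^ 2 :=
          pow_le_pow_left₀ (norm_nonneg _) (key I) 2
      _ = BF ^ 2 * (∑ a, |fderiv ℝ v x (F a x) I|) ^ 2 := by ring
      _ ≤ _ := mul_le_mul_of_nonneg_left h3 (sq_nonneg _)
  have hq : ∀ t : Tn n j, ∑ I, t I ^ 2 = j.factorial * q2 t := by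
    intro t
    rw [(n1 t).2.2]
    have : (j.factorial : ℝ) ≠ 0 := by positivity
    field_simp
  have key3 : ∀ a, q2 (fderiv ℝ v x (F a x)) ≤
      2 * q2 (cv F G v x a) + 2 * ((j * n * BG) ^ 2 * q2 (v x)) := by
    intro a
    have e : fderiv ℝ v x (F a x) = cv F G v x a + rho (G x a) (v x) := by
      unfold cv; rw [sub_add_cancel]
    have h3 := n4 (cv F G v x a) (rho (G x a) (v x)) 1 one_pos
    have h4 := (hRho n j (G x a) (G x a)).2.2.2.2 BG (v x) (h2 a)
    rw [e]
    norm_num at h3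
    linarith
  calc ∑ I, ‖fderiv ℝ (fun y => v y I) x‖ ^ 2
      ≤ ∑ I, BF ^ 2 * (n * ∑ a, (fderiv ℝ v x (F a x) I) ^ 2) :=
        Finset.sum_le_sum fun I _ => key2 I
    _ = BF ^ 2 * n * j.factorial * ∑ a, q2 (fderiv ℝ v x (F a x)) := by
        rw [← Finset.mul_sum, ← Finset.mul_sum, Finset.sum_comm,
          Finset.sum_congr rfl fun a _ => hq (fderiv ℝ v x (F a x)), ← Finset.mul_sum]
        ring
    _ ≤ BF ^ 2 * n * j.factorial * ((2 + 2 * n * (j * n * BG) ^ 2) * (NF F G v x + q2 (v x))) := by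
        refine mul_le_mul_of_nonneg_left ?_ (by positivity)
        have h5 : ∑ a, q2 (fderiv ℝ v x (F a x)) ≤
            2 * NF F G v x + n * (2 * ((j * n * BG) ^ 2 * q2 (v x))) := by
          calc ∑ a, q2 (fderiv ℝ v x (F a x))
              ≤ ∑ a, (2 * q2 (cv F G v x a) + 2 * ((j * n * BG) ^ 2 * q2 (v x))) :=
                Finset.sum_le_sum fun a _ => key3 a
            _ = _ := by
                rw [Finset.sum_add_distrib, ← Finset.mul_sum, Finset.sum_const, Finset.card_univ,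
                  Fintype.card_fin, nsmul_eq_mul]
                rfl
        have hN : 0 ≤ NF F G v x := Finset.sum_nonneg fun a _ => (n1 _).1
        have hQ : 0 ≤ q2 (v x) := (n1 _).1
        have hn : (0 : ℝ) ≤ n := Nat.cast_nonneg n
        have h6 : 0 ≤ 2 * n * (j * n * BG) ^ 2 * NF F G v x := by positivity
        nlinarith
    _ = _ := by ring

/-- CUF. -/
theorem hCuf (hDlv : StDlv) (hNrm : TNrm) (hRho : TRho) (hCub : TCub) : TCuf := by
  intro n j g Γ F G hg hΓ hF K0 hK0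
  obtain ⟨Q, hQm, hQb, hK0Q, hQ⟩ := hCub n K0 hK0
  refine ⟨Q, hQm, hQb, hK0Q, ?_⟩
  intro θ hθ
  have hKc : IsCompact (closure Q) := hQb.isCompact_closure
  obtain ⟨vs, vp, -⟩ := hDlv n g Γ hg hΓ
  have n1 := (hNrm n j).1
  have vinv : Continuous fun x => (vol g x)⁻¹ := vs.continuous.inv₀ fun x => (vp x).ne'
  obtain ⟨c1, hc1⟩ := hKc.exists_bound_of_continuousOn vs.continuous.continuousOn
  obtain ⟨c2, hc2⟩ := hKc.exists_bound_of_continuousOn vinv.continuousOn
  have gcont : Continuous g := hg.smooth.continuous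
  have gn0 : Continuous fun B : Bl n => ‖B‖ := by
    have h1 := @continuous_norm (Bl n) _
    exact h1
  have gn : Continuous fun x => ‖g x‖ := gn0.comp gcont
  have Fn : ∀ a, Continuous fun x => ‖F a x‖ := fun a => (hF.smF a).continuous.norm
  have gFc : ∀ a, Continuous fun x => ‖g x‖ * ‖F a x‖ := fun a => gn.mul (Fn a)
  have gFs : Continuous fun x => ∑ a, ‖g x‖ * ‖F a x‖ := continuous_finsetSum _ fun a _ => gFc a
  have Gc : ∀ a b c, Continuous fun x => |G x a b c| := fun a b c => (hF.smG a b c).continuous.abs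
  have Gs : Continuous fun x => ∑ a, ∑ b, ∑ c, |G x a b c| :=
    continuous_finsetSum _ fun a _ => continuous_finsetSum _ fun b _ =>
      continuous_finsetSum _ fun c _ => Gc a b c
  obtain ⟨BF, hBF⟩ := hKc.exists_bound_of_continuousOn gFs.continuousOn
  obtain ⟨BG, hBG⟩ := hKc.exists_bound_of_continuousOn Gs.continuousOn
  have hBF' : ∀ x ∈ closure Q, ∀ a, ‖g x‖ * ‖F a x‖ ≤ max BF 0 := fun x hx a => by
    have h := (le_abs_self _).trans (hBF x hx)
    refine (Finset.single_le_sum (f := fun a => ‖g x‖ * ‖F a x‖)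
      (fun a _ => by positivity) (Finset.mem_univ a)).trans (h.trans (le_max_left _ _))
  have hBG' : ∀ x ∈ closure Q, ∀ a b c, |G x a b c| ≤ BG := fun x hx a b c => by
    have h := (le_abs_self _).trans (hBG x hx)
    refine le_trans ?_ h
    calc |G x a b c| ≤ ∑ c, |G x a b c| :=
          Finset.single_le_sum (f := fun c => |G x a b c|) (fun _ _ => abs_nonneg _)
            (Finset.mem_univ c)
      _ ≤ ∑ b, ∑ c, |G x a b c| :=
          Finset.single_le_sum (f := fun b => ∑ c, |G x a b c|)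
            (fun _ _ => Finset.sum_nonneg fun _ _ => abs_nonneg _) (Finset.mem_univ b)
      _ ≤ ∑ a, ∑ b, ∑ c, |G x a b c| :=
          Finset.single_le_sum (f := fun a => ∑ b, ∑ c, |G x a b c|)
            (fun _ _ => Finset.sum_nonneg fun _ _ => Finset.sum_nonneg fun _ _ => abs_nonneg _)
            (Finset.mem_univ a)
  set C2 : ℝ := (max BF 0) ^ 2 * n * j.factorial * (2 + 2 * n * (j * n * BG) ^ 2) with hC2
  have hC2n : 0 ≤ C2 := by positivity
  set d1 : ℝ := max c1 0
  set d2 : ℝ := max c2 0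
  have hd1 : 0 ≤ d1 := le_max_right _ _
  have hd2 : 0 ≤ d2 := le_max_right _ _
  have hv1 : ∀ x ∈ Q, vol g x ≤ d1 := fun x hx =>
    ((le_abs_self _).trans (hc1 x (subset_closure hx))).trans (le_max_left _ _)
  have hv2 : ∀ x ∈ Q, 1 ≤ d2 * vol g x := fun x hx => by
    have h := ((le_abs_self _).trans (hc2 x (subset_closure hx))).trans (le_max_left c2 0)
    have h2 := mul_le_mul_of_nonneg_right h (vp x).le
    rwa [inv_mul_cancel₀ (vp x).ne'] at h2
  let θ' : ℝ := min (1 / (2 * (C2 + 1))) (θ / (2 * d1 * d2 * C2 + 1))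
  have hθ' : 0 < θ' := lt_min (by positivity) (by positivity)
  have ht1 : θ' * C2 ≤ 1 / 2 := by
    have h := mul_le_mul_of_nonneg_right (min_le_left (1 / (2 * (C2 + 1)))
      (θ / (2 * d1 * d2 * C2 + 1))) hC2n
    refine h.trans ?_
    rw [div_mul_eq_mul_div, div_le_iff₀ (by positivity)]
    linarith
  have ht2 : θ' * (2 * d1 * d2 * C2) ≤ θ := by
    have h0 : 0 ≤ 2 * d1 * d2 * C2 := by positivity
    have h := mul_le_mul_of_nonneg_right (min_le_right (1 / (2 * (C2 + 1)))
      (θ / (2 * d1 * d2 * C2 + 1))) h0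
    refine h.trans ?_
    rw [div_mul_eq_mul_div, div_le_iff₀ (by positivity)]
    nlinarith
  obtain ⟨N, S, C, hN, hSm, hSQ, hC, hP⟩ := hQ θ' hθ'
  let e := (Fintype.equivFin (Fin N × (Fin j → Fin n))).symm
  refine ⟨Fintype.card (Fin N × (Fin j → Fin n)), fun i => S (e i).1, fun i => (e i).2,
    2 * d1 * C, ?_, fun i => hSm _, fun i => hSQ _, by positivity, ?_⟩
  · intro h
    have := hN h
    subst this
    simp
  intro v hv
  have hvI : ∀ I, ContDiff ℝ ∞ (fun y => v y I) := fun I => contDiff_pi.1 hv I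
  have ion : ∀ f : E n → ℝ, Continuous f → IntegrableOn f Q := fun f hf =>
    (hf.continuousOn.integrableOn_compact hKc).mono_set subset_closure
  have cq : Continuous fun x => q2 (v x) := q2_cont fun I => (hvI I).continuous
  have cN : Continuous (NF F G v) := NF_cont hF hv
  have cf : ∀ I, Continuous fun x => ‖fderiv ℝ (fun y => v y I) x‖ ^ 2 := fun I =>
    ((hvI I).continuous_fderiv (by simp)).norm.pow 2
  have cp2 : ∀ I, Continuous fun x => v x I ^ 2 := fun I => (hvI I).continuous.pow 2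
  have s1 : ∫ x in Q, ∑ I, v x I ^ 2 ≤ θ' * (∫ x in Q, C2 * (NF F G v x + q2 (v x))) +
      C * ∑ I, ∑ i, (∫ x in S i, v x I) ^ 2 := by
    rw [integral_finsetSum _ fun I _ => ion _ (cp2 I)]
    calc ∑ I, ∫ x in Q, v x I ^ 2
        ≤ ∑ I, (θ' * (∫ x in Q, ‖fderiv ℝ (fun y => v y I) x‖ ^ 2) +
          C * ∑ i, (∫ x in S i, v x I) ^ 2) :=
          Finset.sum_le_sum fun I _ => hP (fun y => v y I) ((hvI I).of_le (by simp))
      _ = θ' * (∫ x in Q, ∑ I, ‖fderiv ℝ (fun y => v y I) x‖ ^ 2) +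
          C * ∑ I, ∑ i, (∫ x in S i, v x I) ^ 2 := by
          rw [integral_finsetSum _ fun I _ => ion _ (cf I), Finset.sum_add_distrib,
            ← Finset.mul_sum, ← Finset.mul_sum]
      _ ≤ _ := by
          refine add_le_add_left (mul_le_mul_of_nonneg_left ?_ hθ'.le) _
          refine setIntegral_mono_on (ion _ (continuous_finsetSum _ fun I _ => cf I))
            (ion _ (continuous_const.mul (cN.add cq))) hQm fun x hx => ?_
          exact dbound hNrm hRho hF hv x (max BF 0) BG (le_max_right _ _)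
            (hBF' x (subset_closure hx)) (hBG' x (subset_closure hx))
  have hfac : (1 : ℝ) ≤ j.factorial := by exact_mod_cast j.factorial_pos
  have s2 : ∫ x in Q, q2 (v x) ≤ ∫ x in Q, ∑ I, v x I ^ 2 := by
    refine setIntegral_mono_on (ion _ cq)
      (ion _ (continuous_finsetSum _ fun I _ => cp2 I)) hQm fun x _ => ?_
    rw [(n1 (v x)).2.2]
    exact div_le_self (Finset.sum_nonneg fun I _ => sq_nonneg _) hfac
  have s3 : ∫ x in Q, C2 * (NF F G v x + q2 (v x)) =
      C2 * ((∫ x in Q, NF F G v x) + ∫ x in Q, q2 (v x)) := by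
    rw [integral_const_mul, integral_add (ion _ cN) (ion _ cq)]
  have qn : 0 ≤ ∫ x in Q, q2 (v x) := setIntegral_nonneg hQm fun x _ => (n1 _).1
  have Nn : ∀ x, 0 ≤ NF F G v x := fun x => Finset.sum_nonneg fun a _ => (n1 _).1
  set Sg := ∑ I, ∑ i, (∫ x in S i, v x I) ^ 2 with hSg
  have s4 : ∫ x in Q, q2 (v x) ≤ 2 * (θ' * C2) * (∫ x in Q, NF F G v x) + 2 * C * Sg := by
    rw [s3] at s1
    have h := s2.trans s1
    nlinarith
  have s5 : ∫ x in K0, q2 (v x) * vol g x ≤ ∫ x in Q, q2 (v x) * vol g x :=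
    setIntegral_mono_set (ion _ (cq.mul vs.continuous))
      (Eventually.of_forall fun x => mul_nonneg (n1 _).1 (vp x).le) (Eventually.of_forall hK0Q)
  have s6 : ∫ x in Q, q2 (v x) * vol g x ≤ d1 * ∫ x in Q, q2 (v x) := by
    rw [← integral_const_mul]
    refine setIntegral_mono_on (ion _ (cq.mul vs.continuous)) (ion _ (continuous_const.mul cq)) hQm
      fun x hx => ?_
    rw [mul_comm]
    exact mul_le_mul_of_nonneg_right (hv1 x hx) (n1 _).1
  have s7 : ∫ x in Q, NF F G v x ≤ d2 * ∫ x in Q, NF F G v x * vol g x := by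
    rw [← integral_const_mul]
    refine setIntegral_mono_on (ion _ cN) (ion _ (continuous_const.mul (cN.mul vs.continuous))) hQm
      fun x hx => ?_
    have h := mul_le_mul_of_nonneg_left (hv2 x hx) (Nn x)
    linarith
  have s8 : 0 ≤ ∫ x in Q, NF F G v x * vol g x :=
    setIntegral_nonneg hQm fun x _ => mul_nonneg (Nn x) (vp x).le
  have s9 : ∑ i, (∫ x in S (e i).1, v x (e i).2) ^ 2 = Sg := by
    rw [hSg, Equiv.sum_comp e (fun p : Fin N × (Fin j → Fin n) => (∫ x in S p.1, v x p.2) ^ 2),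
      Fintype.sum_prod_type, Finset.sum_comm]
  rw [s9]
  have t1 : d1 * ∫ x in Q, q2 (v x) ≤
      d1 * (2 * (θ' * C2) * (∫ x in Q, NF F G v x) + 2 * C * Sg) :=
    mul_le_mul_of_nonneg_left s4 hd1
  have t2 : 2 * d1 * (θ' * C2) * (∫ x in Q, NF F G v x) ≤
      2 * d1 * (θ' * C2) * (d2 * ∫ x in Q, NF F G v x * vol g x) :=
    mul_le_mul_of_nonneg_left s7 (by positivity)
  have t3 : θ' * (2 * d1 * d2 * C2) * (∫ x in Q, NF F G v x * vol g x) ≤
      θ * ∫ x in Q, NF F G v x * vol g x := mul_le_mul_of_nonneg_right ht2 s8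
  calc ∫ x in K0, q2 (v x) * vol g x
      ≤ d1 * (2 * (θ' * C2) * (∫ x in Q, NF F G v x) + 2 * C * Sg) := s5.trans (s6.trans t1)
    _ = 2 * d1 * (θ' * C2) * (∫ x in Q, NF F G v x) + 2 * d1 * C * Sg := by ring
    _ ≤ 2 * d1 * (θ' * C2) * (d2 * ∫ x in Q, NF F G v x * vol g x) + 2 * d1 * C * Sg := by
        linarith
    _ = θ' * (2 * d1 * d2 * C2) * (∫ x in Q, NF F G v x * vol g x) + 2 * d1 * C * Sg := by ring
    _ ≤ θ * (∫ x in Q, NF F G v x * vol g x) + 2 * d1 * C * Sg := by linarith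

end Helper16.DSH
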